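import Pool.Agent.helper35.DR.SpecT

/-!
# Project dr (MP_baa4d7_al), module TIV
-/

set_option autoImplicit false

namespace Pool.Agent.DR

open Pool.Agent.helper58.DC Pool.Agent.DI

theorem TIV_trace {Γ Q : Type} [Group Γ] [Group Q] (q : Γ →* Q) (S : Subgroup Γ) (ψ : Γ → ℂ)
    (α : Q → Q → ℂˣ) (hα : α ∈ Coc Q) (V : Type) [AddCommGroup V] [Module ℂ V]
    [FiniteDimensional ℂ V] (T : Γ → Module.End ℂ V) (hT : AscT S q ψ α T) (s x : Γ)
    (hs : s ∈ S) (hx : x ∈ S) :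
    LinearMap.trace ℂ V (T x) =
      ((tw α (q s) (q x) : ℂˣ) : ℂ) * LinearMap.trace ℂ V (T (s * x * s⁻¹)) := by
  have hα1 := hα.1 (q s) (q s)⁻¹ (q s)
  rw [mul_inv_cancel, inv_mul_cancel, hα.2.1, hα.2.2, mul_one, one_mul] at hα1
  set c : ℂ := ((α (q s) (q s)⁻¹ : ℂˣ) : ℂ) with hc
  have hc0 : c ≠ 0 := (α (q s) (q s)⁻¹).ne_zero
  have h1 : T s * T s⁻¹ = c • (1 : Module.End ℂ V) := by
    rw [hT.mul s hs s⁻¹ (S.inv_mem hs), mul_inv_cancel, hT.one, map_inv]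
  have h2 : T s⁻¹ * T s = c • (1 : Module.End ℂ V) := by
    rw [hT.mul s⁻¹ (S.inv_mem hs) s hs, inv_mul_cancel, hT.one, map_inv, hc, hα1]
  have hsx : s * x * s⁻¹ ∈ S := S.mul_mem (S.mul_mem hs hx) (S.inv_mem hs)
  have h3 := hT.mul s hs x hx
  have h4 := hT.mul (s * x * s⁻¹) hsx s hs
  rw [inv_mul_cancel_right] at h4
  have h5 : T s * T x = ((tw α (q s) (q x) : ℂˣ) : ℂ) • (T (s * x * s⁻¹) * T s) := by
    rw [h4, h3, smul_smul]
    congr 1
    rw [← Units.val_mul]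
    congr 1
    unfold tw
    rw [map_mul, map_mul, map_inv, inv_mul_cancel_right]
  have h6 : LinearMap.trace ℂ V (T s * T x * T s⁻¹) = c * LinearMap.trace ℂ V (T x) := by
    rw [LinearMap.trace_mul_comm, ← mul_assoc, h2, smul_mul_assoc, one_mul, map_smul, smul_eq_mul]
  rw [h5, smul_mul_assoc, mul_assoc, h1, mul_smul_comm, mul_one, map_smul, map_smul, smul_eq_mul,
    smul_eq_mul] at h6
  have h7 : c * (((tw α (q s) (q x) : ℂˣ) : ℂ) * LinearMap.trace ℂ V (T (s * x * s⁻¹))) =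
      c * LinearMap.trace ℂ V (T x) := by
    rw [← h6]; ring
  exact (mul_left_cancel₀ hc0 h7).symm

theorem TIV (hTNM : TNM_stmt) : TIV_stmt := by
  intro Γ Q _ _ _ _ q S hS ψ hψ α hα V _ _ _ T hT N hN φ σ hφ0 hφ
  have hex : ∀ n ∈ N, ∃ x ∈ S ⊓ N.comap q, q x = n ∧ LinearMap.trace ℂ V (T x) ≠ 0 := by
    intro n hn
    have hn' : n ∈ S.map q := hS ▸ Subgroup.mem_top n
    obtain ⟨s, hs, rfl⟩ := hn'
    have h1 := hTNM Γ Q q S ψ hψ α hα V T hT s hs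
    by_contra hcon
    push Not at hcon
    have h2 : ∑ᶠ h ∈ ((S ⊓ q.ker : Subgroup Γ) : Set Γ), LinearMap.trace ℂ V (T (s * h)) *
      LinearMap.trace ℂ V (T (s * h)⁻¹) * ((α (q s) (q s)⁻¹ : ℂˣ) : ℂ)⁻¹ =
        ∑ᶠ h ∈ ((S ⊓ q.ker : Subgroup Γ) : Set Γ), (0 : ℂ) := by
      refine finsum_mem_congr rfl (fun h hh => ?_)
      have hh1 : h ∈ S := hh.1
      have hh2 : q h = 1 := hh.2
      have h3 : q (s * h) = q s := by rw [map_mul, hh2, mul_one]
      have h4 : s * h ∈ S ⊓ N.comap q := by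
        refine ⟨S.mul_mem hs hh1, ?_⟩
        change q (s * h) ∈ N
        rw [h3]
        exact hn
      rw [hcon _ h4 h3, zero_mul, zero_mul]
    rw [h2, finsum_mem_zero] at h1
    have h5 : (Nat.card (S ⊓ q.ker : Subgroup Γ) : ℂ) ≠ 0 := by
      exact_mod_cast Nat.card_pos.ne'
    exact h5 h1.symm
  have hconj : ∀ s ∈ S, ∀ x, x ∈ S ⊓ N.comap q → s * x * s⁻¹ ∈ S ⊓ N.comap q := by
    intro s hs x hx
    refine ⟨S.mul_mem (S.mul_mem hs hx.1) (S.inv_mem hs), ?_⟩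
    change q (s * x * s⁻¹) ∈ N
    rw [map_mul, map_mul, map_inv]
    exact hN.conj_mem _ hx.2 _
  refine ⟨⟨?_, ?_⟩, ?_⟩
  · intro hinv q0 n hn
    have hq0 : q0 ∈ S.map q := hS ▸ Subgroup.mem_top q0
    obtain ⟨s, hs, rfl⟩ := hq0
    obtain ⟨x, hx, rfl, hx0⟩ := hex n hn
    have h1 := congrFun (hinv s hs) (s * x * s⁻¹)
    have h2 : funMap (MulAut.conj s) φ (s * x * s⁻¹) = φ x := by
      unfold funMap
      congr 1
      rw [← map_inv, MulAut.conj_apply]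
      group
    rw [h2, hφ x hx, hφ _ (hconj s hs x hx)] at h1
    have h3 := TIV_trace q S ψ α hα V T hT s x hs hx.1
    have h4 : LinearMap.trace ℂ V (T (s * x * s⁻¹)) ≠ 0 := by
      intro h
      rw [h, mul_zero] at h3
      exact hx0 h3
    rw [h3] at h1
    have h5 : q (s * x * s⁻¹) = q s * q x * (q s)⁻¹ := by rw [map_mul, map_mul, map_inv]
    rw [h5] at h1
    rw [tw_inv]
    have htw : ((tw α (q s) (q x) : ℂˣ) : ℂ) ≠ 0 := Units.ne_zero _
    rw [Units.val_inv_eq_inv_val]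
    field_simp
    apply mul_left_cancel₀ h4
    rw [← h1]
    ring
  · intro hinv s hs
    funext g
    unfold funMap
    have h0 : (MulAut.conj s)⁻¹ g = s⁻¹ * g * s := by
      rw [← map_inv, MulAut.conj_apply]
      group
    rw [h0]
    by_cases hx : s⁻¹ * g * s ∈ S ⊓ N.comap q
    · have hg : s * (s⁻¹ * g * s) * s⁻¹ = g := by group
      have hgL : g ∈ S ⊓ N.comap q := hg ▸ hconj s hs _ hx
      rw [hφ _ hx, hφ _ hgL, TIV_trace q S ψ α hα V T hT s _ hs hx.1, hg,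
        hinv (q s) (q (s⁻¹ * g * s)) hx.2, tw_inv, Units.val_inv_eq_inv_val]
      have htw : ((tw α (q s) (q (s⁻¹ * g * s)) : ℂˣ) : ℂ) ≠ 0 := Units.ne_zero _
      have h5 : q s * q (s⁻¹ * g * s) * (q s)⁻¹ = q g := by
        rw [← map_mul, ← map_inv, ← map_mul, hg]
      rw [h5]
      field_simp
    · have hgL : g ∉ S ⊓ N.comap q := by
        intro hg
        apply hx
        have := hconj s⁻¹ (S.inv_mem hs) g hg
        rwa [inv_inv] at this
      rw [hφ0 _ hx, hφ0 _ hgL]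
  · intro σ' hσ' n hn
    obtain ⟨x, hx, rfl, hx0⟩ := hex n hn
    have h1 := hσ' x hx
    rw [hφ x hx] at h1
    exact (mul_left_cancel₀ hx0 h1).symm

end Pool.Agent.DR
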